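import Pool.Agent.X297.CH.Main

set_option autoImplicit false

/-!
# MP_c6f870_an, Q1: local propagation for cubically hyponormal matrix-valued weighted shifts

Proof.  Let `k = j + 1 ≥ 1`, `A_k x = A_{k+1} x = b x` with `b > 0` and `a v = x`, where
`a = A_{k-1}`, `c = A_{k+2}`, `p = A_{k-2}`.  For small real `ε` test the hyponormality of
`T = W + ε W²` on the vector with entries `ε² b³ v, -ε b x, x, -ε b x, ε² b c x` at the places
`k-1, …, k+3`.  All terms of order `ε²` cancel, and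
`‖T h‖² - ‖T* h‖² = -ε⁴ b² (‖c² x - b² x‖² + ‖p (b² v - a x)‖²) + O(ε⁶)`.
Hence `c² x = b² x`, i.e. `A_{k+2} x = b x`, and, if `k ≥ 2`, `a x = b² v`, i.e. `A_{k-1} x = b x`.
Finally `ker (A_{k+1} - A_k)` is invariant under `A_k` (hyponormality of `W`), hence spanned by
such eigenvectors.  Quadratic hyponormality is enough.
-/

open scoped InnerProductSpace ComplexOrder
open Pool.Agent.X297.CH

namespace Pool.Agent.Results.MP_c6f870_an.LocalPropagation

variable {E : Type*} [NormedAddCommGroup E] [InnerProductSpace ℂ E] [CompleteSpace E]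

/-- `T + λ T²` is hyponormal for every `λ`. -/
def IsQuadraticallyHyponormal {H : Type*} [NormedAddCommGroup H] [InnerProductSpace ℂ H]
    [CompleteSpace H] (T : H →L[ℂ] H) : Prop :=
  ∀ l : ℂ, IsHyponormal (T + l • T ^ 2)

/-- `T + λ T² + μ T³` is hyponormal for all `λ, μ`. -/
def IsCubicallyHyponormal {H : Type*} [NormedAddCommGroup H] [InnerProductSpace ℂ H]
    [CompleteSpace H] (T : H →L[ℂ] H) : Prop :=
  ∀ l m : ℂ, IsHyponormal (T + l • T ^ 2 + m • T ^ 3)

theorem quadratic_of_cubic {W : SeqSpace E →L[ℂ] SeqSpace E} (h : IsCubicallyHyponormal W) :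
    IsQuadraticallyHyponormal W := by
  intro l
  have := h l 0
  rwa [zero_smul, add_zero] at this

/-- If `P, Q` are self-adjoint, `‖P u‖ ≤ ‖Q u‖` for all `u` and `P x = Q x`, then
`P² x = Q² x`. -/
theorem sq_eq_of_eq (P Q : E →L[ℂ] E) (hP : P.IsPositive) (hQ : Q.IsPositive)
    (hle : ∀ u, ‖P u‖ ^ 2 ≤ ‖Q u‖ ^ 2) (x : E) (hx : P x = Q x) : P (P x) = Q (Q x) := by
  set G : E →L[ℂ] E := Q * Q - P * P with hG
  have hGapp : ∀ u, ⟪G u, u⟫_ℂ = ((‖Q u‖ ^ 2 - ‖P u‖ ^ 2 : ℝ) : ℂ) := by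
    intro u
    have e1 : G u = Q (Q u) - P (P u) := rfl
    have e2 : ⟪Q (Q u), u⟫_ℂ = ⟪Q u, Q u⟫_ℂ := hQ.isSymmetric (Q u) u
    have e3 : ⟪P (P u), u⟫_ℂ = ⟪P u, P u⟫_ℂ := hP.isSymmetric (P u) u
    rw [e1, inner_sub_left, e2, e3, inner_self_eq_norm_sq_to_K, inner_self_eq_norm_sq_to_K]
    push_cast
    rfl
  have hGpos : G.IsPositive := by
    rw [ContinuousLinearMap.isPositive_iff_complex]
    intro u
    rw [hGapp u]
    constructor
    · exact_mod_cast rfl
    · change 0 ≤ (((‖Q u‖ ^ 2 - ‖P u‖ ^ 2 : ℝ) : ℂ)).re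
      rw [Complex.ofReal_re]
      linarith [hle u]
  have hG0 : 0 ≤ G := (ContinuousLinearMap.nonneg_iff_isPositive G).2 hGpos
  obtain ⟨R, hR⟩ := CStarAlgebra.nonneg_iff_eq_star_mul_self.1 hG0
  have h1 : ⟪G x, x⟫_ℂ = ⟪R x, R x⟫_ℂ := by
    rw [hR]
    exact ContinuousLinearMap.adjoint_inner_left R x (R x)
  have h2 : ⟪R x, R x⟫_ℂ = 0 := by
    rw [← h1, hGapp x, hx]
    simp
  have h3 : R x = 0 := inner_self_eq_zero.1 h2
  have h4 : G x = 0 := by
    rw [hR]
    change (star R) (R x) = 0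
    rw [h3, map_zero]
  exact (sub_eq_zero.1 (show Q (Q x) - P (P x) = 0 from h4)).symm

theorem norm_le_of_quad {A : ℕ → E →L[ℂ] E} {W : SeqSpace E →L[ℂ] SeqSpace E}
    (hW : IsWeightedShift A W) (hA : ∀ n, (A n).IsPositive) (hq : IsQuadraticallyHyponormal W)
    (n : ℕ) (u : E) : ‖A n u‖ ^ 2 ≤ ‖A (n + 1) u‖ ^ 2 := by
  have h0 : IsHyponormal W := by
    have := hq 0
    rwa [zero_smul, add_zero] at this
  have h1 := hypo_le h0 (sgl (n + 1) u)
  rw [shift_single hW] at h1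
  have h2 := sum_le ((star W) (sgl (n + 1) u)) {n}
  rw [Finset.sum_singleton, adj_apply hW hA, sgl_apply, if_pos rfl] at h2
  have h3 : ‖sgl (n + 1 + 1) (A (n + 1) u)‖ ^ 2 = ‖A (n + 1) u‖ ^ 2 := by
    rw [norm_sq_eq (sgl (n + 1 + 1) (A (n + 1) u)) {n + 1 + 1}]
    · rw [Finset.sum_singleton, sgl_apply, if_pos rfl]
    · intro m hm
      rw [sgl_apply, if_neg (by simpa using hm)]
  rw [h3] at h1
  exact h2.trans h1

theorem eq_of_sq (c : E →L[ℂ] E) (hc : c.IsPositive) (w : E) (b : ℝ) (hb : 0 < b)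
    (h : c (c w) = ((b ^ 2 : ℝ) : ℂ) • w) : c w = (b : ℂ) • w := by
  set d : E := c w - (b : ℂ) • w with hd
  have h1 : c d = -((b : ℂ) • d) := by
    rw [hd, map_sub, map_smul, h, smul_sub, smul_smul]
    have : ((b ^ 2 : ℝ) : ℂ) = (b : ℂ) * (b : ℂ) := by push_cast; ring
    rw [this]
    abel
  have h2 := hc.re_inner_nonneg_left d
  rw [h1, inner_neg_left, inner_smul_left, Complex.conj_ofReal, inner_self_eq_norm_sq_to_K] at h2
  have h3 : RCLike.re (-((b : ℂ) * ((‖d‖ : ℝ) : ℂ) ^ 2)) = -(b * ‖d‖ ^ 2) := by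
    rw [← Complex.ofReal_pow, ← Complex.ofReal_mul, ← Complex.ofReal_neg]
    exact Complex.ofReal_re _
  have h4 : 0 ≤ -(b * ‖d‖ ^ 2) := by
    rw [← h3]
    exact h2
  have h5 : ‖d‖ ^ 2 = 0 := by
    have : 0 ≤ ‖d‖ ^ 2 := by positivity
    nlinarith
  have h6 := norm_eq_zero.1 (pow_eq_zero_iff (two_ne_zero) |>.1 h5)
  exact sub_eq_zero.1 h6

theorem eigen_step {A : ℕ → E →L[ℂ] E} {W : SeqSpace E →L[ℂ] SeqSpace E}
    (hW : IsWeightedShift A W) (hA : ∀ n, (A n).IsPositive) (hu : ∀ n, IsUnit (A n))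
    (hq : IsQuadraticallyHyponormal W) (j : ℕ) (x : E) (b : ℝ) (hb : 0 < b)
    (h1 : A (j + 1) x = (b : ℂ) • x) (h2 : A (j + 2) x = (b : ℂ) • x) :
    A (j + 3) x = (b : ℂ) • x ∧ (1 ≤ j → A j x = (b : ℂ) • x) := by
  obtain ⟨v, hv⟩ : ∃ v, A j v = x := by
    obtain ⟨u, hu'⟩ := hu j
    refine ⟨(u⁻¹ : (E →L[ℂ] E)ˣ).val x, ?_⟩
    rw [← hu']
    have : ((u : E →L[ℂ] E) * (u⁻¹ : (E →L[ℂ] E)ˣ).val) x = x := by
      rw [Units.mul_inv]; rfl
    exact this
  obtain ⟨s1, s2⟩ := step hW hA (fun ε => hq ε) j x v b hb h1 h2 hv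
  refine ⟨eq_of_sq _ (hA _) x b hb s1, fun hj => ?_⟩
  have s3 := s2 hj
  have s4 : ((b ^ 2 : ℝ) : ℂ) • v - A j x = 0 := by
    obtain ⟨u, hu'⟩ := hu (j - 1)
    rw [← hu'] at s3
    have : ((u⁻¹ : (E →L[ℂ] E)ˣ).val * (u : E →L[ℂ] E)) (((b ^ 2 : ℝ) : ℂ) • v - A j x)
        = ((b ^ 2 : ℝ) : ℂ) • v - A j x := by
      rw [Units.inv_mul]; rfl
    rw [← this]
    change (u⁻¹ : (E →L[ℂ] E)ˣ).val ((u : E →L[ℂ] E) (((b ^ 2 : ℝ) : ℂ) • v - A j x)) = 0
    rw [s3, map_zero]
  refine eq_of_sq _ (hA _) x b hb ?_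
  rw [← sub_eq_zero.1 s4, map_smul, hv]

variable [FiniteDimensional ℂ E]

theorem both_steps {A : ℕ → E →L[ℂ] E} {W : SeqSpace E →L[ℂ] SeqSpace E}
    (hW : IsWeightedShift A W) (hA : ∀ n, (A n).IsPositive) (hu : ∀ n, IsUnit (A n))
    (hq : IsQuadraticallyHyponormal W) (j : ℕ) (x : E) (hx : A (j + 1) x = A (j + 2) x) :
    A (j + 3) x = A (j + 2) x ∧ (1 ≤ j → A j x = A (j + 1) x) := by
  let M : Submodule ℂ E := LinearMap.ker ((A (j + 1) - A (j + 2) : E →L[ℂ] E) : E →ₗ[ℂ] E)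
  have memM : ∀ u, u ∈ M ↔ A (j + 1) u = A (j + 2) u := by
    intro u
    rw [LinearMap.mem_ker]
    change A (j + 1) u - A (j + 2) u = 0 ↔ _
    exact sub_eq_zero
  have hinv : ∀ u ∈ M, ((A (j + 1) : E →L[ℂ] E) : E →ₗ[ℂ] E) u ∈ M := by
    intro u hu'
    rw [memM] at hu' ⊢
    change A (j + 1) (A (j + 1) u) = A (j + 2) (A (j + 1) u)
    have := sq_eq_of_eq (A (j + 1)) (A (j + 2)) (hA _) (hA _)
      (fun w => norm_le_of_quad hW hA hq (j + 1) w) u hu'
    rw [this, hu']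
  have hsym : (((A (j + 1) : E →L[ℂ] E) : E →ₗ[ℂ] E)).IsSymmetric := (hA (j + 1)).isSymmetric
  have hB := hsym.restrict_invariant hinv
  let bs := hB.eigenvectorBasis rfl
  have hbs : ∀ i, A (j + 1) (bs i : E) = ((hB.eigenvalues rfl i : ℝ) : ℂ) • (bs i : E) := by
    intro i
    have := congrArg (Subtype.val) (hB.apply_eigenvectorBasis rfl i)
    exact this
  have hbs2 : ∀ i, A (j + 2) (bs i : E) = ((hB.eigenvalues rfl i : ℝ) : ℂ) • (bs i : E) := by
    intro i
    rw [← (memM _).1 (bs i).2, hbs i]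
  have hnorm : ∀ i, ‖(bs i : E)‖ = 1 := by
    intro i
    exact bs.norm_eq_one i
  have hbpos : ∀ i, 0 < hB.eigenvalues rfl i := by
    intro i
    have h1 := (hA (j + 1)).re_inner_nonneg_left (bs i : E)
    rw [hbs i, inner_smul_left, Complex.conj_ofReal, inner_self_eq_norm_sq_to_K, hnorm i] at h1
    have h2 : 0 ≤ hB.eigenvalues rfl i := by
      have h3 : RCLike.re (((hB.eigenvalues rfl i : ℝ) : ℂ) * (((1 : ℝ) : ℂ)) ^ 2)
          = hB.eigenvalues rfl i := by
        rw [← Complex.ofReal_pow, ← Complex.ofReal_mul, one_pow, mul_one]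
        exact Complex.ofReal_re _
      rw [← h3]
      exact h1
    rcases h2.lt_or_eq with h | h
    · exact h
    · exfalso
      have h4 := hbs i
      rw [← h, Complex.ofReal_zero, zero_smul] at h4
      obtain ⟨u, hu'⟩ := hu (j + 1)
      rw [← hu'] at h4
      have h5 : ((u⁻¹ : (E →L[ℂ] E)ˣ).val * (u : E →L[ℂ] E)) (bs i : E) = (bs i : E) := by
        rw [Units.inv_mul]; rfl
      have h6 : (bs i : E) = 0 := by
        rw [← h5]
        change (u⁻¹ : (E →L[ℂ] E)ˣ).val ((u : E →L[ℂ] E) (bs i : E)) = 0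
        rw [h4, map_zero]
      have := hnorm i
      rw [h6, norm_zero] at this
      exact zero_ne_one this
  have hstep := fun i => eigen_step hW hA hu hq j (bs i : E) _ (hbpos i) (hbs i) (hbs2 i)
  have hrep : x = ∑ i, (bs.repr ⟨x, (memM x).2 hx⟩) i • (bs i : E) := by
    have h1 := congrArg (Subtype.val) (bs.sum_repr ⟨x, (memM x).2 hx⟩)
    refine h1.symm.trans ?_
    simp
  constructor
  · rw [hrep, map_sum, map_sum]
    refine Finset.sum_congr rfl fun i _ => ?_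
    rw [map_smul, map_smul, (hstep i).1, hbs2 i]
  · intro hj
    rw [hrep, map_sum, map_sum]
    refine Finset.sum_congr rfl fun i _ => ?_
    rw [map_smul, map_smul, (hstep i).2 hj, hbs i]

theorem main {A : ℕ → E →L[ℂ] E} {W : SeqSpace E →L[ℂ] SeqSpace E}
    (hW : IsWeightedShift A W) (hA : ∀ n, (A n).IsPositive) (hu : ∀ n, IsUnit (A n))
    (hq : IsQuadraticallyHyponormal W) (x : E) (k : ℕ) (hk : 1 ≤ k)
    (hx : A k x = A (k + 1) x) : ∀ n, 1 ≤ n → A n x = A 1 x := by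
  have up : ∀ m, A (k + m) x = A (k + m + 1) x := by
    intro m
    induction m with
    | zero => exact hx
    | succ m ih =>
      obtain ⟨j, hj⟩ : ∃ j, k + m = j + 1 := ⟨k + m - 1, by omega⟩
      rw [hj] at ih
      have := (both_steps hW hA hu hq j x ih).1
      rw [show k + (m + 1) = j + 2 by omega, show j + 2 + 1 = j + 3 by omega, this]
  have down : ∀ d i, i + d = k → 1 ≤ i → A i x = A (i + 1) x := by
    intro d
    induction d with
    | zero =>
      intro i hi _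
      rw [add_zero] at hi
      rw [hi]
      exact hx
    | succ d ih =>
      intro i hi h1
      have h2 := ih (i + 1) (by omega) (by omega)
      exact (both_steps hW hA hu hq i x h2).2 h1
  have all : ∀ i, 1 ≤ i → A i x = A (i + 1) x := by
    intro i hi
    rcases le_total i k with h | h
    · exact down (k - i) i (by omega) hi
    · have := up (i - k)
      rwa [show k + (i - k) = i by omega] at this
  intro n hn
  induction n with
  | zero => omega
  | succ n ih =>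
    rcases Nat.eq_zero_or_pos n with h | h
    · subst h; rfl
    · rw [← all n h, ih h]

/-- **Theorem** (positive answer to Q1, in a stronger form).  Let `A₀, A₁, …` be positive
invertible operators on a finite-dimensional complex Hilbert space `E` and `W` the bounded
weighted shift with these weights on `ℓ²(E)`.  If `W` is cubically hyponormal, or only
quadratically hyponormal, and `A_k x = A_{k+1} x` for some `k ≥ 1` and some `x ∈ E`, then
`A_n x = A_1 x` for all `n ≥ 1`. -/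
theorem result (A : ℕ → E →L[ℂ] E) (hA : ∀ n, (A n).IsPositive ∧ IsUnit (A n))
    (W : SeqSpace E →L[ℂ] SeqSpace E) (hW : IsWeightedShift A W)
    (hyp : IsCubicallyHyponormal W ∨ IsQuadraticallyHyponormal W)
    (x : E) (k : ℕ) (hk : 1 ≤ k) (hx : A k x = A (k + 1) x) :
    ∀ n, 1 ≤ n → A n x = A 1 x := by
  have hq : IsQuadraticallyHyponormal W := by
    rcases hyp with h | h
    · exact quadratic_of_cubic h
    · exact h
  exact main hW (fun n => (hA n).1) (fun n => (hA n).2) hq x k hk hx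

end Pool.Agent.Results.MP_c6f870_an.LocalPropagation
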